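import Pool.Agent.Q197.LipNet.Iso

/-!
# Lipschitz spaces of nets are isomorphic to their `ℓ_∞`-sums

The isomorphism is the dual of the isomorphism of the Lipschitz free space of the net with its
`ℓ_1`-sum (`Pool.Agent.H621R3.LF.net_iso`, the case `p = 1`).
-/

set_option autoImplicit false

namespace Pool.Agent.Results.MP_1d1573_an.NetLipschitzIso

open Pool.Agent.Q197.LipNet

universe u

/-- For every real normed space `X` (separable or not), every net `N` in `X` and every base point
of `N`, the Banach space `Lip₀(N)` is linearly isomorphic to `ℓ_∞(Lip₀(N))`. -/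
theorem result {X : Type u} [NormedAddCommGroup X] [NormedSpace ℝ X] (N : Set X) (hN : IsNet N)
    (x0 : N) : Nonempty (Lip0 N x0 ≃L[ℝ] lp (fun _ : ℕ => Lip0 N x0) ⊤) := by
  obtain ⟨ε, δ, hε, hδ, h1, h2⟩ := hN
  refine lip0_iso ⟨ε, max ε δ, hε, le_max_left _ _, fun x hx y hy hxy => ?_, fun v => ?_⟩ x0
  · rw [← dist_eq_norm]
    exact h1 x hx y hy hxy
  · obtain ⟨y, hy, hv⟩ := h2 v
    rw [dist_eq_norm] at hv
    exact ⟨y, hy, hv.le.trans (le_max_right _ _)⟩

end Pool.Agent.Results.MP_1d1573_an.NetLipschitzIso
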